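import Pool.Agent.Helper89.A8.Stmts
import Pool.Agent.Helper89.A8.GTools
import Pool.Agent.Helper89.A8.MTools

/-!
# Block G10 : `bSTD2`
-/

set_option autoImplicit false

namespace Pool.Agent.A8

open Matrix
open scoped commutatorElement

theorem std2_comm_mul {G : Type*} [Group G] (w y z : G) :
    ⁅w, y * z⁆ = ⁅w, y⁆ * (y * ⁅w, z⁆ * y⁻¹) := by
  simp only [commutatorElement_def]; group

theorem std2_comm_conj {G : Type*} [Group G] (k w y : G) :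
    ⁅k * w * k⁻¹, y⁆ = k * ⁅w, k⁻¹ * y * k⁆ * k⁻¹ := by
  simp only [commutatorElement_def]; group

theorem bSTD2 (h1 : S_PAIR) (h2 : S_UC) : S_STD2 := by
  intro G _ _ π hcfg W B b φ hW hWK hB c χ hχ hker
  have hBn := hB.normal
  have hval : ∀ w ∈ W, ∀ y ∈ B, ⁅w, y⁆ ∈ ⁅W, B⁆ := fun w hw y hy =>
    Subgroup.commutator_mem_commutator hw hy
  have hcn : ∀ (g : G), ∀ z ∈ ⁅W, B⁆, g * z * g⁻¹ ∈ ⁅W, B⁆ := fun g z hz =>
    (Subgroup.commutator_normal W B).conj_mem z hz g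
  have hK : ∀ x ∈ W, ∀ y ∈ B, ∀ k ∈ π.ker, χ ⁅k * x * k⁻¹, y⁆ = χ ⁅x, y⁆ := by
    intro x hx y hy k hk
    have hy' : k⁻¹ * y * k ∈ B := by
      have := hBn.conj_mem y hy k⁻¹
      rwa [inv_inv] at this
    rw [std2_comm_conj, hχ.conj_ker hk (hval x hx _ hy')]
    have hφ : φ (k⁻¹ * y * k) = φ y := by
      have := hB.toHomOn.conj_ker (π.ker.inv_mem hk) hy
      rwa [inv_inv] at this
    have hy1 : y⁻¹ * (k⁻¹ * y * k) ∈ B := B.mul_mem (B.inv_mem hy) hy'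
    have hφ1 : φ (y⁻¹ * (k⁻¹ * y * k)) = 0 := by
      rw [hB.mul _ (B.inv_mem hy) _ hy', hB.toHomOn.map_inv hy, hφ, add_self]
    have e : k⁻¹ * y * k = y * (y⁻¹ * (k⁻¹ * y * k)) := by group
    rw [e, std2_comm_mul, hχ.mul _ (hval _ hx _ hy) _ (hcn _ _ (hval _ hx _ hy1)),
      hχ.conj_ker (hB.le hy) (hval _ hx _ hy1), hker x hx _ hy1 hφ1, add_zero]
  by_cases hne : ∀ w ∈ W, ∀ y ∈ B, χ ⁅w, y⁆ = 0
  · exact Or.inl hne
  right
  obtain ⟨Xb, Yb, _, _, _, _, _, _, φ', ψ, p, hφ', sφ', hψ, sψ, hp, hadm, hL, hR, _, _⟩ :=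
    h1 G π hcfg W B hW hBn hWK hB.le (Md c) χ hχ hK
  push Not at hne
  obtain ⟨w0, hw0, y0, hy0, h0⟩ := hne
  -- `ψ` factors through `φ`
  have hz : ∀ y ∈ B, φ y = 0 → ψ y = 0 := by
    intro y hy hy0
    apply hR
    intro x
    obtain ⟨w, hw, rfl⟩ := sφ' x
    rw [hp w hw y hy, hker w hw y hy hy0]
  have hwd : ∀ y ∈ B, ∀ y' ∈ B, φ y = φ y' → ψ y = ψ y' := by
    intro y hy y' hy' h
    have h3 : φ (y * y'⁻¹) = 0 := by
      rw [hB.toHomOn.map_mul_inv hy hy', h, add_self]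
    have h4 := hz _ (B.mul_mem hy (B.inv_mem hy')) h3
    rw [hψ.map_mul_inv hy hy', ← sub_eq_add', sub_eq_zero] at h4
    exact h4
  choose r hrB hrφ using hB.surj
  have hr : ∀ y ∈ B, ψ (r (φ y)) = ψ y := fun y hy => hwd _ (hrB _) _ hy (hrφ _)
  let e : Md b →ₗ[RG] Yb := mkLin (AddMonoidHom.mk' (fun m => ψ (r m)) (fun m m' => by
      rw [← hψ.mul _ (hrB m) _ (hrB m')]
      apply hwd _ (hrB _) _ (B.mul_mem (hrB _) (hrB _))
      rw [hB.mul _ (hrB m) _ (hrB m'), hrφ, hrφ, hrφ])) (fun g m => by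
    change ψ (r (act g m)) = act g (ψ (r m))
    obtain ⟨k, rfl⟩ := hcfg.surj g
    rw [← hψ.conj k _ (hrB m)]
    apply hwd _ (hrB _) _ (hBn.conj_mem _ (hrB m) k)
    rw [hrφ, hB.conj k _ (hrB m), hrφ])
  have he : ∀ y ∈ B, e (φ y) = ψ y := hr
  let p' : Xb →+ Md b →+ Md c := pcomp LinearMap.id e LinearMap.id p
  have hp' : ∀ x m, p' x m = p x (e m) := fun x m => rfl
  have hadm' : Adm p' := pcomp_adm _ _ _ hadm
  have hL' : PerfL p' := by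
    intro x hx
    apply hL
    intro y
    obtain ⟨y, hy, rfl⟩ := sψ y
    rw [← he y hy, ← hp']
    exact hx _
  have hφ0 : φ' w0 ≠ 0 := by
    intro h
    apply h0
    rw [← hp w0 hw0 y0 hy0, h, map_zero, AddMonoidHom.zero_apply]
  have : Nontrivial Xb := ⟨⟨φ' w0, 0, hφ0⟩⟩
  obtain ⟨a, m, α, hm, hα⟩ := h2 b c Xb p' hadm' hL'
  refine ⟨a, m, fun x => α (φ' x), hm, hφ'.comp α.toLinearMap, ⟨w0, hw0, ?_⟩, ?_⟩
  · intro h
    exact hφ0 (α.map_eq_zero_iff.1 h)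
  · intro w hw y hy
    rw [← hα, hp', he y hy, hp w hw y hy]

end Pool.Agent.A8
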